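import Pool.Agent.H83.V.T1
import Pool.Agent.H67.LF.PIR

/-!
Theorem V, row PIRV: the inequality for a pair of processes.
-/

set_option autoImplicit false

open MeasureTheory ProbabilityTheory Filter Topology Finset
open scoped Nat ENNReal

namespace Pool.Agent.H19.V

open Pool.Agent.H24.T2 (Pset)
open Pool.Agent.H67.AG (avgP ul Inv TT Fac)
open Pool.Agent.H28.LF (Wd La Cd dm ds)
open Pool.Agent.H67.LF (pair_sum avg_mono avg_add avg_mul avg_sum avg_abs ul_sum inv_set int_inv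
  dm_meas dm_01 dm_nonneg dm_le int_bdd Wd_meas)
open Pool.Agent.H83.V

section main

variable {Ω : Type} [MeasurableSpace Ω] {q : ℕ}

open Classical in
/-- the inequality for one prime -/
theorem one_prime (h3 : T_PWV) (P : Measure Ω) [IsProbabilityMeasure P] (T : Ω ≃ᵐ Ω)
    (m p : ℕ) (I : Finset (Fin m)) (B : Set (Fin m → Fin q)) (a a' : Ω → Fin q) (A : Set Ω)
    (mp : MeasurePreserving T P P) (hC : CodeI I B) (ha : Measurable a)
    (ha' : Measurable a') (hA : MeasurableSet[Inv T 1] A) :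
    (I.card : ℝ) * ∫ ω in A, dm a a' ω ∂P ≤
      P.real (A ∩ {ω | Wd T a m p ω ∈ B}) + P.real (A ∩ {ω | Wd T a' m p ω ∈ B}) +
      2 * (I.card : ℝ) * ∑ d ∈ Icc 1 m,
        ∫ ω in A, dm a a' ω * dm a a' (T^[p * d] ω) ∂P := by
  obtain ⟨hAm, hAi⟩ := inv_set hA
  have hdm : Measurable (dm a a') := dm_meas ha ha'
  set D : Fin m → Ω → ℝ := fun i ω => dm a a' (T^[p * ((i : ℕ) + 1)] ω) with hD
  have hDm : ∀ i, Measurable (D i) := fun i => hdm.comp (T.measurable.iterate _)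
  have hD0 : ∀ i ω, 0 ≤ D i ω := fun i ω => dm_nonneg a a' _
  have hD1 : ∀ i ω, D i ω ≤ 1 := fun i ω => dm_le a a' _
  have hDD : ∀ i ω, D i ω * D i ω = D i ω := fun i ω => by
    rcases dm_01 a a' (T^[p * ((i : ℕ) + 1)] ω) with h | h
    · change dm a a' _ * dm a a' _ = dm a a' _
      rw [h, mul_zero]
    · change dm a a' _ * dm a a' _ = dm a a' _
      rw [h, mul_one]
  have hDi : ∀ i, Integrable (D i) (P.restrict A) := fun i =>
    int_bdd (hDm i) 1 fun ω => abs_le.2 ⟨by linarith [hD0 i ω], hD1 i ω⟩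
  have hDDi : ∀ i j, Integrable (fun ω => D i ω * D j ω) (P.restrict A) := fun i j =>
    int_bdd ((hDm i).mul (hDm j)) 1 fun ω => abs_le.2
      ⟨by linarith [mul_nonneg (hD0 i ω) (hD0 j ω)],
        mul_le_one₀ (hD1 i ω) (hD0 j ω) (hD1 j ω)⟩
  -- the pointwise inequality
  have hpt : ∀ ω, ∑ i ∈ I, D i ω - ∑ i ∈ I, ∑ j ∈ univ.filter (fun j => j ≠ i), D i ω * D j ω ≤
      {ω | Wd T a m p ω ∈ B}.indicator (fun _ => (1 : ℝ)) ω +
        {ω | Wd T a' m p ω ∈ B}.indicator (fun _ => (1 : ℝ)) ω := by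
    intro ω
    have h := h3 q m I (Wd T a m p ω) (Wd T a' m p ω) B hC
    have e0 : ∀ J : Finset (Fin m), ((J.filter fun i =>
        Wd T a m p ω i ≠ Wd T a' m p ω i).card : ℝ) = ∑ i ∈ J, D i ω := by
      intro J
      rw [Finset.card_filter, Nat.cast_sum]
      refine Finset.sum_congr rfl fun i _ => ?_
      change (((if a (T^[p * ((i : ℕ) + 1)] ω) ≠ a' (T^[p * ((i : ℕ) + 1)] ω) then 1 else 0 : ℕ) : ℝ)
        = if a (T^[p * ((i : ℕ) + 1)] ω) = a' (T^[p * ((i : ℕ) + 1)] ω) then 0 else 1)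
      by_cases hh : a (T^[p * ((i : ℕ) + 1)] ω) = a' (T^[p * ((i : ℕ) + 1)] ω)
      · rw [if_neg (not_not.2 hh), if_pos hh, Nat.cast_zero]
      · rw [if_pos hh, if_neg hh, Nat.cast_one]
    rw [e0 I, e0 univ] at h
    have e3 : (∑ i ∈ I, D i ω) * (∑ i, D i ω - 1) =
        ∑ i ∈ I, ∑ j ∈ univ.filter (fun j => j ≠ i), D i ω * D j ω := by
      rw [mul_sub, mul_one, Finset.sum_mul_sum, ← Finset.sum_sub_distrib]
      refine Finset.sum_congr rfl fun i hi => ?_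
      have h5 := Finset.sum_filter_add_sum_filter_not univ (fun j => j ≠ i)
        (fun j => D i ω * D j ω)
      have h6 : univ.filter (fun j => ¬ (j ≠ i)) = {i} := by
        ext j
        simp only [Finset.mem_filter, Finset.mem_univ, true_and, not_not, Finset.mem_singleton]
      rw [h6, Finset.sum_singleton, hDD] at h5
      linarith
    rw [e3] at h
    have e4 : {ω | Wd T a m p ω ∈ B}.indicator (fun _ => (1 : ℝ)) ω =
        if Wd T a m p ω ∈ B then 1 else 0 := by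
      rw [Set.indicator_apply]
      rfl
    have e5 : {ω | Wd T a' m p ω ∈ B}.indicator (fun _ => (1 : ℝ)) ω =
        if Wd T a' m p ω ∈ B then 1 else 0 := by
      rw [Set.indicator_apply]
      rfl
    rw [e4, e5]
    exact h
  -- integration
  have hBm : MeasurableSet {ω | Wd T a m p ω ∈ B} := Wd_meas T ha m p B
  have hBm' : MeasurableSet {ω | Wd T a' m p ω ∈ B} := Wd_meas T ha' m p B
  have i1 : Integrable (fun ω => ∑ i ∈ I, D i ω) (P.restrict A) :=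
    integrable_finsetSum _ fun i _ => hDi i
  have i2 : Integrable (fun ω => ∑ i ∈ I, ∑ j ∈ univ.filter (fun j => j ≠ i), D i ω * D j ω)
      (P.restrict A) :=
    integrable_finsetSum _ fun i _ => integrable_finsetSum _ fun j _ => hDDi i j
  have i4 : Integrable ({ω | Wd T a m p ω ∈ B}.indicator (fun _ => (1 : ℝ)))
      (P.restrict A) := (integrable_const 1).indicator hBm
  have i5 : Integrable ({ω | Wd T a' m p ω ∈ B}.indicator (fun _ => (1 : ℝ)))
      (P.restrict A) := (integrable_const 1).indicator hBm'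
  have hint := integral_mono (μ := P.restrict A) (i1.sub i2) (i4.add i5) hpt
  have r1 : ∫ ω in A, (∑ i ∈ I, D i ω -
      ∑ i ∈ I, ∑ j ∈ univ.filter (fun j => j ≠ i), D i ω * D j ω) ∂P =
      ∑ i ∈ I, ∫ ω in A, D i ω ∂P -
        ∑ i ∈ I, ∑ j ∈ univ.filter (fun j => j ≠ i), ∫ ω in A, D i ω * D j ω ∂P := by
    have r1b : ∫ ω in A, (∑ i ∈ I, D i ω -
          ∑ i ∈ I, ∑ j ∈ univ.filter (fun j => j ≠ i), D i ω * D j ω) ∂P =
        (∫ ω in A, ∑ i ∈ I, D i ω ∂P) -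
          ∫ ω in A, ∑ i ∈ I, ∑ j ∈ univ.filter (fun j => j ≠ i), D i ω * D j ω ∂P :=
      integral_sub i1 i2
    rw [r1b, integral_finsetSum _ fun i _ => hDi i,
      integral_finsetSum _ fun i _ => integrable_finsetSum _ fun j _ => hDDi i j]
    refine congrArg (fun x => _ - x) (Finset.sum_congr rfl fun i _ => ?_)
    rw [integral_finsetSum _ fun j _ => hDDi i j]
  have r2 : ∫ ω in A, ({ω | Wd T a m p ω ∈ B}.indicator (fun _ => (1 : ℝ)) ω +
      {ω | Wd T a' m p ω ∈ B}.indicator (fun _ => (1 : ℝ)) ω) ∂P =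
      P.real (A ∩ {ω | Wd T a m p ω ∈ B}) + P.real (A ∩ {ω | Wd T a' m p ω ∈ B}) := by
    rw [integral_add i4 i5, integral_indicator hBm, integral_indicator hBm',
      setIntegral_const, setIntegral_const, smul_eq_mul, smul_eq_mul, mul_one, mul_one,
      measureReal_restrict_apply hBm, measureReal_restrict_apply hBm', Set.inter_comm A,
      Set.inter_comm A]
  have r3 : ∀ i, ∫ ω in A, D i ω ∂P = ∫ ω in A, dm a a' ω ∂P := fun i =>
    int_inv mp hA (dm a a') hdm _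
  set c : ℕ → ℝ := fun d => ∫ ω in A, dm a a' ω * dm a a' (T^[p * d] ω) ∂P with hc
  have hc0 : ∀ d, 0 ≤ c d := fun d => integral_nonneg fun ω =>
    mul_nonneg (dm_nonneg a a' _) (dm_nonneg a a' _)
  have hlt : ∀ i j : Fin m, (i : ℕ) < j →
      ∫ ω in A, D i ω * D j ω ∂P = c ((j : ℕ) - i) := by
    intro i j hij
    have h1 := int_inv mp hA (fun ω => dm a a' ω * dm a a' (T^[p * ((j : ℕ) - i)] ω))
      (hdm.mul (hdm.comp (T.measurable.iterate _))) (p * ((i : ℕ) + 1))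
    have h2 : ∀ ω, T^[p * ((j : ℕ) - i)] (T^[p * ((i : ℕ) + 1)] ω) =
        T^[p * ((j : ℕ) + 1)] ω := by
      intro ω
      rw [← Function.iterate_add_apply]
      have : p * ((j : ℕ) - i) + p * ((i : ℕ) + 1) = p * ((j : ℕ) + 1) := by
        rw [← mul_add]
        congr 1
        omega
      rw [this]
    simp only [h2] at h1
    exact h1
  have r4 : ∀ i ∈ I, ∑ j ∈ univ.filter (fun j => j ≠ i), ∫ ω in A, D i ω * D j ω ∂P ≤
      2 * ∑ d ∈ Icc 1 m, c d := by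
    intro i _
    have h1 := pair_sum m univ m (fun i _ => i.2) c hc0 i (Finset.mem_univ i)
    refine le_trans (le_of_eq (Finset.sum_congr rfl fun j hj => ?_)) h1
    rw [Finset.mem_filter] at hj
    rcases lt_trichotomy (i : ℕ) j with h | h | h
    · rw [if_pos h]
      exact hlt i j h
    · exact absurd (Fin.ext h.symm) hj.2
    · rw [if_neg (by omega), ← hlt j i h]
      exact integral_congr_ae (Filter.Eventually.of_forall fun ω => mul_comm _ _)
  have r5 : ∑ i ∈ I, ∑ j ∈ univ.filter (fun j => j ≠ i), ∫ ω in A, D i ω * D j ω ∂P ≤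
      2 * (I.card : ℝ) * ∑ d ∈ Icc 1 m, c d := by
    refine (Finset.sum_le_sum r4).trans (le_of_eq ?_)
    rw [Finset.sum_const, nsmul_eq_mul]
    ring
  have r6 : ∑ i ∈ I, ∫ ω in A, D i ω ∂P = (I.card : ℝ) * ∫ ω in A, dm a a' ω ∂P := by
    rw [Finset.sum_congr rfl fun i _ => r3 i, Finset.sum_const, nsmul_eq_mul]
  have hint' : ∑ i ∈ I, ∫ ω in A, D i ω ∂P -
        ∑ i ∈ I, ∑ j ∈ univ.filter (fun j => j ≠ i), ∫ ω in A, D i ω * D j ω ∂P ≤
      P.real (A ∩ {ω | Wd T a m p ω ∈ B}) + P.real (A ∩ {ω | Wd T a' m p ω ∈ B}) := by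
    rw [← r1, ← r2]
    exact hint
  rw [r6] at hint'
  linarith [r5, hint']

end main

theorem pf_PIRV (h3 : T_PWV) (hU : Pool.Agent.H67.AG.T_UL) : T_PIRV := by
  intro Ω _ P _ T U s q M I Bad a a' A mp hU' hs hC ha ha' hA
  obtain ⟨hAm, hAi⟩ := inv_set hA
  have hdm : Measurable (dm a a') := dm_meas ha ha'
  set mA : ℝ := ∫ ω in A, dm a a' ω ∂P with hmA
  set Fa : ℕ → ℝ := fun p => s p * P.real (A ∩ {ω | Wd T a M p ω ∈ Bad p}) with hFa
  set Fa' : ℕ → ℝ := fun p => s p * P.real (A ∩ {ω | Wd T a' M p ω ∈ Bad p}) with hFa'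
  set c : ℕ → ℕ → ℝ := fun d p => ∫ ω in A, dm a a' ω * dm a a' (T^[p * d] ω) ∂P with hc
  have hs0 : ∀ p, 0 ≤ s p := fun p => by rcases hs p with h | h <;> rw [h]; norm_num
  have hs1 : ∀ p, s p ≤ 1 := fun p => by rcases hs p with h | h <;> rw [h]; norm_num
  have hI0 : (0 : ℝ) ≤ (I.card : ℝ) := Nat.cast_nonneg _
  have hc0 : ∀ d p, 0 ≤ c d p := fun d p => integral_nonneg fun ω =>
    mul_nonneg (dm_nonneg a a' _) (dm_nonneg a a' _)
  have hc1 : ∀ d p, c d p ≤ 1 := by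
    intro d p
    have h1 : c d p ≤ ∫ _ω in A, (1 : ℝ) ∂P := by
      refine integral_mono (int_bdd (hdm.mul (hdm.comp (T.measurable.iterate _))) 1 fun ω =>
        abs_le.2 ⟨?_, ?_⟩) (integrable_const 1) fun ω => ?_
      · have := mul_nonneg (dm_nonneg a a' ω) (dm_nonneg a a' (T^[p * d] ω))
        change -1 ≤ dm a a' ω * dm a a' (T^[p * d] ω)
        linarith
      · exact mul_le_one₀ (dm_le a a' _) (dm_nonneg a a' _) (dm_le a a' _)
      · exact mul_le_one₀ (dm_le a a' _) (dm_nonneg a a' _) (dm_le a a' _)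
    refine h1.trans ?_
    rw [setIntegral_const, smul_eq_mul, mul_one]
    exact measureReal_le_one
  have hP0 : ∀ E : Set Ω, 0 ≤ P.real E := fun E => measureReal_nonneg
  have hP1 : ∀ E : Set Ω, P.real E ≤ 1 := fun E => measureReal_le_one
  -- one prime with the flag
  have h1 : ∀ p, ((I.card : ℝ) * mA) * s p ≤ Fa p + Fa' p +
      (2 * (I.card : ℝ)) * ∑ d ∈ Icc 1 M, c d p := by
    intro p
    have hsum : 0 ≤ (2 * (I.card : ℝ)) * ∑ d ∈ Icc 1 M, c d p :=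
      mul_nonneg (by linarith) (Finset.sum_nonneg fun d _ => hc0 d p)
    rcases hs p with h | h
    · simp only [hFa, hFa', h, mul_zero, zero_mul, zero_add]
      exact hsum
    · simp only [hFa, hFa', h, mul_one, one_mul]
      exact one_prime h3 P T M p I (Bad p) a a' A mp (hC p) ha ha' hA
  have bs : ∀ m, |avgP 2 m s| ≤ 1 := fun m => avg_abs 2 m s 1 zero_le_one fun p =>
    abs_le.2 ⟨by linarith [hs0 p], hs1 p⟩
  have bFa : ∀ m, |avgP 2 m Fa| ≤ 1 := fun m => avg_abs 2 m Fa 1 zero_le_one fun p =>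
    abs_le.2 ⟨by linarith [mul_nonneg (hs0 p) (hP0 (A ∩ {ω | Wd T a M p ω ∈ Bad p}))],
      mul_le_one₀ (hs1 p) (hP0 _) (hP1 _)⟩
  have bFa' : ∀ m, |avgP 2 m Fa'| ≤ 1 := fun m => avg_abs 2 m Fa' 1 zero_le_one fun p =>
    abs_le.2 ⟨by linarith [mul_nonneg (hs0 p) (hP0 (A ∩ {ω | Wd T a' M p ω ∈ Bad p}))],
      mul_le_one₀ (hs1 p) (hP0 _) (hP1 _)⟩
  have bc : ∀ d m, |avgP 2 m (c d)| ≤ 1 := fun d m => avg_abs 2 m (c d) 1 zero_le_one fun p =>
    abs_le.2 ⟨by linarith [hc0 d p], hc1 d p⟩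
  have h2 : ∀ m, ((I.card : ℝ) * mA) * avgP 2 m s ≤ (avgP 2 m Fa + avgP 2 m Fa') +
      (2 * (I.card : ℝ)) * ∑ d ∈ Icc 1 M, avgP 2 m (c d) := by
    intro m
    have h3 := avg_mono 2 m _ _ h1
    rw [avg_mul, avg_add, avg_add, avg_mul, avg_sum] at h3
    exact h3
  obtain ⟨hu1, hu2, hu3, hu4, hu5⟩ := hU U
  obtain ⟨⟨C', hC'⟩, hsumul⟩ := ul_sum hU U (Icc 1 M) (fun d m => avgP 2 m (c d)) 1 bc
  have b1 : ∃ C, ∀ m, |((I.card : ℝ) * mA) * avgP 2 m s| ≤ C :=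
    ⟨|(I.card : ℝ) * mA| * 1, fun m => by
      rw [abs_mul]
      exact mul_le_mul_of_nonneg_left (bs m) (abs_nonneg _)⟩
  have b2 : ∃ C, ∀ m, |avgP 2 m Fa + avgP 2 m Fa'| ≤ C :=
    ⟨1 + 1, fun m => (abs_add_le _ _).trans (add_le_add (bFa m) (bFa' m))⟩
  have b3 : ∃ C, ∀ m, |(2 * (I.card : ℝ)) * ∑ d ∈ Icc 1 M, avgP 2 m (c d)| ≤ C :=
    ⟨|2 * (I.card : ℝ)| * C', fun m => by
      rw [abs_mul]
      exact mul_le_mul_of_nonneg_left (hC' m) (abs_nonneg _)⟩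
  have b4 : ∃ C, ∀ m, |(avgP 2 m Fa + avgP 2 m Fa') +
      (2 * (I.card : ℝ)) * ∑ d ∈ Icc 1 M, avgP 2 m (c d)| ≤ C := by
    obtain ⟨C2, h2'⟩ := b2
    obtain ⟨C3, h3'⟩ := b3
    exact ⟨C2 + C3, fun m => (abs_add_le _ _).trans (add_le_add (h2' m) (h3' m))⟩
  have h4 := hu2 (fun m => ((I.card : ℝ) * mA) * avgP 2 m s)
    (fun m => (avgP 2 m Fa + avgP 2 m Fa') +
      (2 * (I.card : ℝ)) * ∑ d ∈ Icc 1 M, avgP 2 m (c d)) b1 b4
    (Filter.Eventually.of_forall h2)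
  rw [hu4 (fun m => avgP 2 m s) _ ⟨1, bs⟩,
    hu3 (fun m => avgP 2 m Fa + avgP 2 m Fa') _ b2 b3,
    hu3 (fun m => avgP 2 m Fa) (fun m => avgP 2 m Fa') ⟨1, bFa⟩ ⟨1, bFa'⟩,
    hu4 (fun m => ∑ d ∈ Icc 1 M, avgP 2 m (c d)) _ ⟨C', hC'⟩, hsumul] at h4
  have h5 : ds U s * (I.card : ℝ) * mA = ((I.card : ℝ) * mA) * ds U s := by ring
  rw [h5]
  exact h4

end Pool.Agent.H19.V
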