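import Pool.Agent.H83.V.T1

/-!
Theorem V, row PWV: the pointwise inequality for two words.
-/

set_option autoImplicit false

open Finset

namespace Pool.Agent.H19.V

open Pool.Agent.H83.V

open Classical in
theorem pf_PWV : T_PWV := by
  intro q m I v v' B hC
  have h0 : (0 : ℝ) ≤ (if v ∈ B then (1 : ℝ) else 0) := by split_ifs <;> norm_num
  have h0' : (0 : ℝ) ≤ (if v' ∈ B then (1 : ℝ) else 0) := by split_ifs <;> norm_num
  obtain ⟨S, hS⟩ : ∃ S, S = I.filter fun i => v i ≠ v' i := ⟨_, rfl⟩
  obtain ⟨S', hS'⟩ : ∃ S', S' = univ.filter fun i : Fin m => v i ≠ v' i := ⟨_, rfl⟩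
  have hsub : S ⊆ S' := by
    rw [hS, hS']
    exact Finset.filter_subset_filter _ (Finset.subset_univ I)
  rw [← hS, ← hS']
  rcases Nat.eq_zero_or_pos S.card with h | h
  · rw [h]
    push_cast
    linarith
  · have hle := Finset.card_le_card hsub
    rcases Nat.lt_or_ge S'.card 2 with hN | hN
    · have h1 : S'.card = 1 := by omega
      have h2 : S.card = 1 := by omega
      obtain ⟨i, hi⟩ := Finset.card_eq_one.1 h1
      obtain ⟨i', hi'⟩ := Finset.card_pos.1 h
      have h3 : i' = i := by
        have h4 := hsub hi'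
        rw [hi, Finset.mem_singleton] at h4
        exact h4
      subst h3
      rw [hS, Finset.mem_filter] at hi'
      have hB : v ∈ B ∨ v' ∈ B := by
        by_contra hcon
        rw [not_or] at hcon
        obtain ⟨j, hj, hvj⟩ := hC v v' hcon.1 hcon.2 i' hi'.1 hi'.2
        have h5 : j ∈ S' := by
          rw [hS', Finset.mem_filter]
          exact ⟨Finset.mem_univ _, hvj⟩
        rw [hi, Finset.mem_singleton] at h5
        exact hj h5
      rw [h1, h2]
      rcases hB with h | h
      · rw [if_pos h]
        push_cast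
        linarith
      · rw [if_pos h]
        push_cast
        linarith
    · have h2 : (2 : ℝ) ≤ (S'.card : ℝ) := by exact_mod_cast hN
      have h3 : (0 : ℝ) ≤ (S.card : ℝ) := Nat.cast_nonneg _
      nlinarith

end Pool.Agent.H19.V
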