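import Pool.Agent.H83.V.FV

/-!
Theorem V, row WBV: bad words of the process and bad words of letters.
-/

set_option autoImplicit false

open MeasureTheory ProbabilityTheory Filter Topology Finset
open scoped Nat ENNReal

namespace Pool.Agent.H19.V

open Pool.Agent.H28.LF (Wd Wa Yi shY btY flY xiY CompY)
open Pool.Agent.H83.V

theorem iv_vi_vl (z : Bool) (b : Bool × Bool) : iv (vi (vl z b)) = vl z b := by
  obtain ⟨b1, b2⟩ := b
  cases z <;> cases b1 <;> cases b2 <;> decide

theorem vl_ne_zero_iff (z : Bool) (b : Bool × Bool) : vl z b ≠ 0 ↔ z = true ∨ b.2 = true := by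
  obtain ⟨b1, b2⟩ := b
  cases z <;> cases b1 <;> cases b2 <;> simp [vl]

theorem measurable_btY : Measurable btY := by
  have h : Measurable fun ω : Yi => (ω 0) := measurable_pi_apply 0
  exact measurable_fst.comp h

/-- the exceptional set of `T_SUP` -/
def XSup (w : ℕ) : Set Yi := {ω | ¬ ((btY ω).2 = true ↔ Sup (rsq w ω))}

theorem measurableSet_XSup {w : ℕ} (h : Measurable (rsq w)) : MeasurableSet (XSup w) := by
  have h1 : Measurable fun ω : Yi => (btY ω, rsq w ω) := measurable_btY.prodMk h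
  have h2 : MeasurableSet {x : (Bool × Bool) × RS w | ¬ (x.1.2 = true ↔ Sup x.2)} :=
    MeasurableSet.of_discrete
  exact h1 h2

theorem pf_WBV (hR : T_RSQ) (hS : T_SUP) : T_WBV := by
  intro z m I w lb p ν hw hν
  have := hν.prob
  obtain ⟨hm, hae⟩ := hR w ν hν
  have hX := measurableSet_XSup hm
  have hXm : ν.real (XSup w) ≤ 1 / w := hS w ν hw hν
  have hpre : ∀ k : ℕ, ν.real (shY^[k] ⁻¹' XSup w) = ν.real (XSup w) := fun k =>
    (hν.erg.toMeasurePreserving.iterate k).measureReal_preimage hX.nullMeasurableSet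
  have hsub : ∀ᵐ ω ∂ν, Wd shY (aY z w) m p ω ∈ BadV z I w lb p →
      Wa shY btY m p ω ∈ PB z I (lb p) ∨ ∃ i : Fin m, ω ∈ shY^[p * ((i : ℕ) + 1)] ⁻¹' XSup w := by
    filter_upwards [hae] with ω hω hB
    by_contra hno
    push Not at hno
    obtain ⟨hP, hE⟩ := hno
    apply hB
    have hv : (fun i : Fin m => (en w).symm (Wd shY (aY z w) m p ω i)) = fun i : Fin m =>
        (vi (vl z (btY (shY^[p * ((i : ℕ) + 1)] ω))), rsq w (shY^[p * ((i : ℕ) + 1)] ω)) := by
      funext i
      simp only [Wd, aY, Equiv.symm_apply_apply]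
    rw [hv]
    refine ⟨fun i j d hd => ⟨((hω _).1 d hd).1, ?_⟩, fun i d hd => (hω _).2 d hd, fun i => ?_, ?_⟩
    · exact (((hω _).1 d hd).2).trans (((hω _).1 d hd).2).symm
    · have h1 : (btY (shY^[p * ((i : ℕ) + 1)] ω)).2 = true ↔
          Sup (rsq w (shY^[p * ((i : ℕ) + 1)] ω)) := by
        have h2 := hE i
        simp only [XSup, Set.mem_preimage, Set.mem_ofPred_eq, not_not] at h2
        exact h2
      dsimp only
      rw [iv_vi_vl, vl_ne_zero_iff, h1]
    · have h3 : (fun i : Fin m => -vl z (Wa shY btY m p ω i)) ∈ Gd I (lb p) := by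
        by_contra h4
        exact hP h4
      have h5 : (fun i : Fin m => -iv (vi (vl z (btY (shY^[p * ((i : ℕ) + 1)] ω))))) =
          fun i : Fin m => -vl z (Wa shY btY m p ω i) := by
        funext i
        rw [iv_vi_vl]
        rfl
      dsimp only
      rw [h5]
      exact h3
  calc ν.real {ω | Wd shY (aY z w) m p ω ∈ BadV z I w lb p}
      ≤ ν.real ({ω | Wa shY btY m p ω ∈ PB z I (lb p)} ∪
          ⋃ i : Fin m, shY^[p * ((i : ℕ) + 1)] ⁻¹' XSup w) := by
        refine ENNReal.toReal_mono (measure_ne_top _ _) (measure_mono_ae ?_)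
        filter_upwards [hsub] with ω hω hB
        rcases hω hB with h | ⟨i, h⟩
        · exact Or.inl h
        · exact Or.inr (Set.mem_iUnion.2 ⟨i, h⟩)
    _ ≤ ν.real {ω | Wa shY btY m p ω ∈ PB z I (lb p)} +
          ν.real (⋃ i : Fin m, shY^[p * ((i : ℕ) + 1)] ⁻¹' XSup w) := measureReal_union_le _ _
    _ ≤ ν.real {ω | Wa shY btY m p ω ∈ PB z I (lb p)} +
          ∑ i : Fin m, ν.real (shY^[p * ((i : ℕ) + 1)] ⁻¹' XSup w) := by
        gcongr
        exact measureReal_iUnion_fintype_le _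
    _ ≤ ν.real {ω | Wa shY btY m p ω ∈ PB z I (lb p)} + ∑ _i : Fin m, (1 / w : ℝ) := by
        gcongr with i _
        rw [hpre]
        exact hXm
    _ = ν.real {ω | Wa shY btY m p ω ∈ PB z I (lb p)} + (m : ℝ) / w := by
        simp only [sum_const, card_univ, Fintype.card_fin, nsmul_eq_mul]
        ring

end Pool.Agent.H19.V
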